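import Pool.Agent.Helper16.Abund.Defs2

/-!
Packet S6 for MP_97d78d_ag: the measure of the fundamental set of a continuously varying lattice
(Tonelli for the projection to the base).
-/

open scoped Manifold ContDiff ENNReal Topology ComplexConjugate ComplexOrder
open MeasureTheory Metric

namespace Pool.Agent.Helper24.Abund

open Pool.Agent.Helper16.Abund

/-- Splitting the coordinates of `ℂᵇ⁺ᵏ` into the first `b` and the last `k` preserves the volume. -/
theorem measurePreserving_baseFib (b k : ℕ) :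
    MeasurePreserving (fun v : Fin (b + k) → ℂ => (base v, fib v)) volume volume := by
  have h1 := (volume_measurePreserving_piCongrLeft (fun _ : Fin (b + k) => ℂ)
    (finSumFinEquiv (m := b) (n := k))).symm
  have h2 := measurePreserving_sumPiEquivProdPi (X := fun _ : Fin b ⊕ Fin k => ℂ) (fun _ => volume)
  have h3 := h2.comp h1
  have h4 : (fun v : Fin (b + k) → ℂ => (base v, fib v)) =
      (⇑(MeasurableEquiv.sumPiEquivProdPi fun _ : Fin b ⊕ Fin k => ℂ) ∘
        ⇑(MeasurableEquiv.piCongrLeft (fun _ : Fin (b + k) => ℂ)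
          (finSumFinEquiv (m := b) (n := k))).symm) := by
    funext v
    rfl
  rw [h4]
  exact h3

/-- The unit cube `[0,1)^{2k}`. -/
def cube (k : ℕ) : Set (Fin (2 * k) → ℝ) := Set.pi Set.univ fun _ => Set.Ico (0 : ℝ) 1

theorem mem_cube {k : ℕ} {θ : Fin (2 * k) → ℝ} : θ ∈ cube k ↔ ∀ l, 0 ≤ θ l ∧ θ l < 1 := by
  simp [cube, Set.mem_pi]

theorem measurableSet_cube (k : ℕ) : MeasurableSet (cube k) :=
  MeasurableSet.univ_pi fun _ => measurableSet_Ico

/-- The fundamental set as a subset of the product. -/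
def fundP {b k : ℕ} (D : Set (Fin b → ℂ)) (Λ : (Fin b → ℂ) → Fin (2 * k) → Fin k → ℂ) :
    Set ((Fin b → ℂ) × (Fin k → ℂ)) :=
  (fun p : (Fin b → ℂ) × (Fin (2 * k) → ℝ) => (p.1, comb Λ p.1 p.2)) '' (D ×ˢ cube k)

theorem mem_fundP {b k : ℕ} {D : Set (Fin b → ℂ)}
    {Λ : (Fin b → ℂ) → Fin (2 * k) → Fin k → ℂ} {z : Fin b → ℂ} {w : Fin k → ℂ} :
    (z, w) ∈ fundP D Λ ↔ z ∈ D ∧ w ∈ (fun θ : Fin (2 * k) → ℝ => comb Λ z θ) '' cube k := by
  constructor
  · rintro ⟨⟨z', θ⟩, ⟨hz, hθ⟩, h⟩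
    simp only [Prod.mk.injEq] at h
    obtain ⟨rfl, rfl⟩ := h
    exact ⟨hz, θ, hθ, rfl⟩
  · rintro ⟨hz, θ, hθ, rfl⟩
    exact ⟨(z, θ), ⟨hz, hθ⟩, rfl⟩

theorem comb_injective {b k : ℕ} {Λ : (Fin b → ℂ) → Fin (2 * k) → Fin k → ℂ} {z : Fin b → ℂ}
    (h : LinearIndependent ℝ (Λ z)) :
    Function.Injective (fun θ : Fin (2 * k) → ℝ => comb Λ z θ) := by
  intro θ θ' hθ
  rw [Fintype.linearIndependent_iff] at h
  have h1 : ∑ l, (θ l - θ' l) • Λ z l = 0 := by
    have h2 : comb Λ z θ - comb Λ z θ' = 0 := sub_eq_zero.mpr hθ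
    rw [← h2]
    unfold comb
    rw [← Finset.sum_sub_distrib]
    refine Finset.sum_congr rfl fun l _ => ?_
    ext j
    simp [sub_mul]
  funext l
  have := h _ h1 l
  linarith

theorem continuousOn_comb {b k : ℕ} {D : Set (Fin b → ℂ)}
    {Λ : (Fin b → ℂ) → Fin (2 * k) → Fin k → ℂ} (hΛ : ContinuousOn Λ D) (T : Set (Fin (2 * k) → ℝ)) :
    ContinuousOn (fun p : (Fin b → ℂ) × (Fin (2 * k) → ℝ) => (p.1, comb Λ p.1 p.2)) (D ×ˢ T) := by
  refine ContinuousOn.prodMk continuous_fst.continuousOn ?_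
  unfold comb
  refine continuousOn_finsetSum _ fun l _ => ?_
  have h1 : ContinuousOn (fun z => Λ z l) D := (continuous_apply l).comp_continuousOn hΛ
  have h2 : ContinuousOn (fun p : (Fin b → ℂ) × (Fin (2 * k) → ℝ) => Λ p.1 l) (D ×ˢ T) :=
    h1.comp continuous_fst.continuousOn fun p hp => hp.1
  have h3 : ContinuousOn (fun p : (Fin b → ℂ) × (Fin (2 * k) → ℝ) => ((p.2 l : ℝ) : ℂ)) (D ×ˢ T) :=
    (Complex.continuous_ofReal.comp ((continuous_apply l).comp continuous_snd)).continuousOn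
  exact h3.smul h2

theorem measurableSet_fundP {b k : ℕ} {D : Set (Fin b → ℂ)} (hD : IsOpen D)
    {Λ : (Fin b → ℂ) → Fin (2 * k) → Fin k → ℂ} (hΛ : ContinuousOn Λ D)
    (hind : ∀ z ∈ D, LinearIndependent ℝ (Λ z)) : MeasurableSet (fundP D Λ) := by
  refine (hD.measurableSet.prod (measurableSet_cube k)).image_of_continuousOn_injOn
    (continuousOn_comb hΛ _) ?_
  rintro ⟨z, θ⟩ ⟨hz, -⟩ ⟨z', θ'⟩ ⟨hz', -⟩ h
  simp only [Prod.mk.injEq] at h
  obtain ⟨rfl, h⟩ := h
  have := comb_injective (hind z hz) h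
  rw [this]

theorem fund_eq_preimage {b k : ℕ} (D : Set (Fin b → ℂ))
    (Λ : (Fin b → ℂ) → Fin (2 * k) → Fin k → ℂ) :
    fund D Λ = (fun v : Fin (b + k) → ℂ => (base v, fib v)) ⁻¹' fundP D Λ := by
  ext v
  rw [Set.mem_preimage, mem_fundP]
  constructor
  · rintro ⟨h1, θ, h2, h3⟩
    exact ⟨h1, θ, mem_cube.mpr h2, h3.symm⟩
  · rintro ⟨h1, θ, h2, h3⟩
    exact ⟨h1, θ, mem_cube.mp h2, h3.symm⟩

/-- **Packet S6.** -/
theorem fund_mass {b k : ℕ} {D : Set (Fin b → ℂ)} (hD : IsOpen D)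
    {Λ : (Fin b → ℂ) → Fin (2 * k) → Fin k → ℂ} (hΛ : ContinuousOn Λ D)
    (hind : ∀ z ∈ D, LinearIndependent ℝ (Λ z)) :
    MeasurableSet (fund D Λ) ∧
    ∀ G : (Fin b → ℂ) → ℝ≥0∞, Measurable G →
      ∫⁻ v in fund D Λ, G (base v) = ∫⁻ z in D, G z *
        volume ((fun θ : Fin (2 * k) → ℝ => comb Λ z θ) ''
          (Set.pi Set.univ fun _ => Set.Ico (0 : ℝ) 1)) := by
  have hP := measurableSet_fundP hD hΛ hind
  have hmp := measurePreserving_baseFib b k
  have hmeas : MeasurableSet (fund D Λ) := by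
    rw [fund_eq_preimage]
    exact hmp.measurable hP
  refine ⟨hmeas, fun G hG => ?_⟩
  have hf : Measurable ((fundP D Λ).indicator fun p : (Fin b → ℂ) × (Fin k → ℂ) => G p.1) :=
    (hG.comp measurable_fst).indicator hP
  have e1 : ∫⁻ v in fund D Λ, G (base v) =
      ∫⁻ v : Fin (b + k) → ℂ, (fundP D Λ).indicator
        (fun p : (Fin b → ℂ) × (Fin k → ℂ) => G p.1) (base v, fib v) := by
    rw [← lintegral_indicator hmeas]
    refine lintegral_congr fun v => ?_
    rw [fund_eq_preimage]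
    rfl
  rw [e1, hmp.lintegral_comp hf, ← lintegral_indicator hD.measurableSet, Measure.volume_eq_prod,
    lintegral_prod _ hf.aemeasurable]
  refine lintegral_congr fun z => ?_
  by_cases hz : z ∈ D
  · rw [Set.indicator_of_mem hz]
    have hS : MeasurableSet ((fun θ : Fin (2 * k) → ℝ => comb Λ z θ) '' cube k) := by
      have : (fun θ : Fin (2 * k) → ℝ => comb Λ z θ) '' cube k = Prod.mk z ⁻¹' fundP D Λ := by
        ext w
        rw [Set.mem_preimage, mem_fundP]
        exact ⟨fun h => ⟨hz, h⟩, fun h => h.2⟩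
      rw [this]
      exact measurable_prodMk_left hP
    have e2 : ∀ w : Fin k → ℂ, (fundP D Λ).indicator
        (fun p : (Fin b → ℂ) × (Fin k → ℂ) => G p.1) (z, w) =
        ((fun θ : Fin (2 * k) → ℝ => comb Λ z θ) '' cube k).indicator (fun _ => G z) w := by
      intro w
      by_cases hw : w ∈ (fun θ : Fin (2 * k) → ℝ => comb Λ z θ) '' cube k
      · rw [Set.indicator_of_mem hw, Set.indicator_of_mem (mem_fundP.mpr ⟨hz, hw⟩)]
      · rw [Set.indicator_of_notMem hw, Set.indicator_of_notMem fun h => hw (mem_fundP.mp h).2]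
    simp_rw [e2]
    rw [lintegral_indicator hS, setLIntegral_const]
    rfl
  · rw [Set.indicator_of_notMem hz]
    have e3 : ∀ w : Fin k → ℂ, (fundP D Λ).indicator
        (fun p : (Fin b → ℂ) × (Fin k → ℂ) => G p.1) (z, w) = 0 := fun w =>
      Set.indicator_of_notMem (fun h => hz (mem_fundP.mp h).1) _
    simp_rw [e3]
    exact lintegral_zero

end Pool.Agent.Helper24.Abund
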